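import Pool.Agent.Lib.PCel.Fin

/-!
# For every `n ≥ 1` it is consistent that the spectrum of a poset with `pc = ℵ₀` misses `ℵ_n`

In the model, `w k` is `ℵ_k`, `(w (n + 1), R)` is the poset and `(w (n + 1), Q)` the second factor.
-/

set_option autoImplicit false

open Pool.Agent.Lib.BVM Pool.Agent.PolB Pool.Agent.PCel

theorem Pool.Agent.Results.MP_3223b9_lc.HoleAtAlephN.result (n : ℕ) (hn : 1 ≤ n) :
    ∃ (M : Type 1) (E : M → M → Prop), IsZFC E ∧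
    ∃ (w : ℕ → M) (R Q : M), IsOmega E (w 0) ∧ (∀ k, IsSucc E (w k) (w (k + 1))) ∧
    IsPre E (w (n + 1)) R ∧ (∀ k < n, InSpec E (w (k + 1)) (w (n + 1)) R) ∧
    ¬ DensLe E (w n) (w (n + 1)) R ∧ IsPre E (w (n + 1)) Q ∧ CC E (w (n + 1)) (w (n + 1)) Q ∧
    ¬ ProdCC E (w (n + 1)) (w (n + 1)) R (w (n + 1)) Q :=
  model_pcel n hn
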